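import Pool.Agent.Y243.SDual.Exp

/-!
Asummability certificates of non-weightedness for self-dual switching functions (constant-sum
simple games): the necessary length is `n ^ ((1/2 + o(1)) n)`, as for all switching functions. In
particular there is no polynomial bound.
-/

set_option autoImplicit false

namespace Pool.Agent.Results.MP_8a557e_co.SelfDualLength

open Filter Topology
open Pool.Agent.Results.MP_96963f_co Pool.Agent.Y243.SDual

/-- The Boolean function `f` is weighted threshold: for some real weights and quota, `f` is true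
exactly when the weighted sum reaches the quota. -/
def IsWeighted {n : ℕ} (f : (Fin n → Bool) → Bool) : Prop :=
  ∃ (w : Fin n → ℝ) (q : ℝ), ∀ x : Fin n → Bool,
    f x = true ↔ q ≤ ∑ i, w i * (if x i = true then 1 else 0)

/-- `f` is `k`-summable: for some `j` with `1 ≤ j ≤ k` there are `j` true vectors and `j` false
vectors (repetitions allowed) with the same sum in `ℤ ^ n`. -/
def IsSummable {n : ℕ} (k : ℕ) (f : (Fin n → Bool) → Bool) : Prop :=
  ∃ j : ℕ, 1 ≤ j ∧ j ≤ k ∧ ∃ x y : Fin j → (Fin n → Bool),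
    (∀ s, f (x s) = true) ∧ (∀ s, f (y s) = false) ∧
      ∀ i, ∑ s, (if x s i = true then (1 : ℤ) else 0) = ∑ s, (if y s i = true then (1 : ℤ) else 0)

lemma isWeighted_iff {n : ℕ} (f : (Fin n → Bool) → Bool) :
    IsWeighted f ↔ SharpExponent.IsThreshold f := by
  have h : ∀ b : Bool, ((b.toNat : ℕ) : ℝ) = if b = true then 1 else 0 := by
    intro b; cases b <;> simp
  unfold IsWeighted SharpExponent.IsThreshold
  simp only [h]

lemma isSummable_iff {n k : ℕ} (f : (Fin n → Bool) → Bool) :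
    IsSummable k f ↔ ¬ SharpExponent.Asummable k f := by
  have h : ∀ b : Bool, (if b = true then (1 : ℤ) else 0) = ((b.toNat : ℕ) : ℤ) := by
    intro b; cases b <;> simp
  unfold IsSummable SharpExponent.Asummable SharpExponent.KSummable
  push Not
  simp only [h, ← Nat.cast_sum, Nat.cast_inj]

/-- For `ε > 0` and all large `n` the number `Msd n` exceeds `n ^ ((1/2 - ε) n)`. -/
lemma eventually_low {ε : ℝ} (hε : 0 < ε) :
    ∀ᶠ n : ℕ in atTop, (n : ℝ) ^ ((1 / 2 - ε) * n) < Msd n := by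
  have h2 := limit_sd.eventually (lt_mem_nhds (show (1 / 2 - ε : ℝ) < 1 / 2 by linarith))
  have hlog : Tendsto (fun n : ℕ => Real.log (n : ℝ)) atTop atTop :=
    Real.tendsto_log_atTop.comp tendsto_natCast_atTop_atTop
  have h3 : ∀ᶠ n : ℕ in atTop, (1 : ℝ) ≤ Real.log n := hlog.eventually (eventually_ge_atTop 1)
  filter_upwards [h2, h3, eventually_ge_atTop 1, eventually_ge_atTop (2 ^ 65)] with n h2 h3 h4 h7
  have h5 : (0 : ℝ) < n := by exact_mod_cast h4
  have h6 : (0 : ℝ) < n * Real.log n := by positivity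
  rw [lt_div_iff₀ h6] at h2
  have h8 : (0 : ℝ) < Msd n := by
    obtain ⟨k, rfl⟩ : ∃ k, n = k + 2 := ⟨n - 2, by omega⟩
    have hk : 2 ^ 64 ≤ k := by
      have : (2 : ℕ) ^ 65 = 2 ^ 64 + 2 ^ 64 := by norm_num
      have : (2 : ℕ) ≤ 2 ^ 64 := by norm_num
      omega
    have h9 := SharpExponent.M_pos hk
    have h10 := le_Msd k
    have : 0 < Msd (k + 2) := by omega
    exact_mod_cast this
  rw [Real.rpow_def_of_pos h5, ← Real.lt_log_iff_exp_lt h8]
  calc Real.log n * ((1 / 2 - ε) * n) = (1 / 2 - ε) * (n * Real.log n) := by ring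
    _ < _ := h2

/-- For `ε > 0` and all large `n` the number `M n` is at most `n ^ ((1/2 + ε) n)`. -/
lemma eventually_up {ε : ℝ} (hε : 0 < ε) :
    ∀ᶠ n : ℕ in atTop, (SharpExponent.M n : ℝ) ≤ (n : ℝ) ^ ((1 / 2 + ε) * n) := by
  have h2 := SharpExponent.main_limit.eventually
    (gt_mem_nhds (show (1 / 2 : ℝ) < 1 / 2 + ε by linarith))
  have hlog : Tendsto (fun n : ℕ => Real.log (n : ℝ)) atTop atTop :=
    Real.tendsto_log_atTop.comp tendsto_natCast_atTop_atTop
  have h3 : ∀ᶠ n : ℕ in atTop, (1 : ℝ) ≤ Real.log n := hlog.eventually (eventually_ge_atTop 1)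
  filter_upwards [h2, h3, eventually_ge_atTop 1, eventually_ge_atTop (2 ^ 65)] with n h2 h3 h4 h7
  have h5 : (0 : ℝ) < n := by exact_mod_cast h4
  have h6 : (0 : ℝ) < n * Real.log n := by positivity
  rw [div_lt_iff₀ h6] at h2
  have h8 : (0 : ℝ) < SharpExponent.M n := by
    have hk : 2 ^ 64 ≤ n := le_trans (Nat.pow_le_pow_right (by norm_num) (by norm_num)) h7
    exact_mod_cast SharpExponent.M_pos hk
  rw [Real.rpow_def_of_pos h5, ← Real.log_le_iff_le_exp h8]
  calc _ ≤ (1 / 2 + ε) * (n * Real.log n) := h2.le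
    _ = Real.log n * ((1 / 2 + ε) * n) := by ring

/-- (1) For every real polynomial `p` and all sufficiently large `n` there is a self-dual switching
function on `n` variables that is not weighted threshold and not `k`-summable for any `k ≤ p(n)`.
(2) More precisely, for every `ε > 0` and all sufficiently large `n` there is a self-dual switching
function on `n` variables that is not weighted threshold and not `k`-summable for any
`k ≤ n ^ ((1/2 - ε) n)`, while every switching function on `n` variables that is not weighted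
threshold is `k`-summable for some `k ≤ n ^ ((1/2 + ε) n)`. -/
theorem result :
    (∀ p : Polynomial ℝ, ∃ N : ℕ, ∀ n : ℕ, N ≤ n →
      ∃ f : (Fin n → Bool) → Bool, Monotone f ∧ (∀ x, f (fun i => !x i) = !f x) ∧
        ¬ IsWeighted f ∧ ∀ k : ℕ, (k : ℝ) ≤ p.eval (n : ℝ) → ¬ IsSummable k f) ∧
    (∀ ε : ℝ, 0 < ε → ∃ N : ℕ, ∀ n : ℕ, N ≤ n →
      (∃ f : (Fin n → Bool) → Bool, Monotone f ∧ (∀ x, f (fun i => !x i) = !f x) ∧
        ¬ IsWeighted f ∧
        ∀ k : ℕ, (k : ℝ) ≤ (n : ℝ) ^ ((1 / 2 - ε) * n) → ¬ IsSummable k f) ∧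
      (∀ f : (Fin n → Bool) → Bool, Monotone f → ¬ IsWeighted f →
        ∃ k : ℕ, (k : ℝ) ≤ (n : ℝ) ^ ((1 / 2 + ε) * n) ∧ IsSummable k f)) := by
  have hlow : ∀ (n : ℕ) (B : ℝ), B < Msd n → (0 : ℝ) < Msd n →
      ∃ f : (Fin n → Bool) → Bool, Monotone f ∧ (∀ x, f (fun i => !x i) = !f x) ∧
        ¬ IsWeighted f ∧ ∀ k : ℕ, (k : ℝ) ≤ B → ¬ IsSummable k f := by
    intro n B hB h0'
    have h0 : 0 < Msd n := by exact_mod_cast h0'
    obtain ⟨f, h1, h2, h3, h4⟩ := exists_sd (n := n) (m := Msd n - 1) (by omega)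
    refine ⟨f, h1, h2, fun h => h4 ((isWeighted_iff f).1 h), fun k hk hs => ?_⟩
    rw [isSummable_iff] at hs
    apply hs
    intro j hj1 hj2
    refine h3 j hj1 (hj2.trans ?_)
    have h5 : (k : ℝ) < Msd n := lt_of_le_of_lt hk hB
    have h6 : k < Msd n := by exact_mod_cast h5
    omega
  refine ⟨fun p => ?_, fun ε hε => ?_⟩
  · have h1 : Tendsto (fun n : ℕ => p.eval (n : ℝ) / Real.exp n) atTop (nhds 0) :=
      (Polynomial.tendsto_div_exp_atTop p).comp tendsto_natCast_atTop_atTop
    have h2 : ∀ᶠ n : ℕ in atTop, p.eval (n : ℝ) / Real.exp n < 1 :=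
      h1.eventually (gt_mem_nhds (by norm_num))
    have hlog : Tendsto (fun n : ℕ => Real.log (n : ℝ)) atTop atTop :=
      Real.tendsto_log_atTop.comp tendsto_natCast_atTop_atTop
    have h3 : ∀ᶠ n : ℕ in atTop, (4 : ℝ) ≤ Real.log n := hlog.eventually (eventually_ge_atTop 4)
    obtain ⟨N, hN⟩ := eventually_atTop.mp
      (h2.and (h3.and ((eventually_low (ε := 1 / 4) (by norm_num)).and (eventually_ge_atTop 1))))
    refine ⟨N, fun n hn => ?_⟩
    obtain ⟨h4, h5, h6, h7⟩ := hN n hn
    have h8 : (0 : ℝ) < n := by exact_mod_cast h7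
    rw [div_lt_one (Real.exp_pos _)] at h4
    have h9 : Real.exp n ≤ (n : ℝ) ^ ((1 / 2 - 1 / 4 : ℝ) * n) := by
      rw [Real.rpow_def_of_pos h8]
      apply Real.exp_le_exp.2
      nlinarith
    have h10 : p.eval (n : ℝ) < Msd n := by linarith
    have h11 : (0 : ℝ) < Msd n := by
      have := Real.exp_pos (n : ℝ)
      linarith
    exact hlow n _ h10 h11
  · obtain ⟨N, hN⟩ := eventually_atTop.mp
      ((eventually_low hε).and ((eventually_up hε).and (eventually_ge_atTop 1)))
    refine ⟨N, fun n hn => ?_⟩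
    obtain ⟨h4, h5, h6⟩ := hN n hn
    have h8 : (0 : ℝ) < n := by exact_mod_cast h6
    refine ⟨hlow n _ h4 ((Real.rpow_pos_of_pos h8 _).trans h4), fun f hf hw => ?_⟩
    refine ⟨SharpExponent.M n, h5, ?_⟩
    rw [isSummable_iff]
    intro ha
    exact hw ((isWeighted_iff f).2 (SharpExponent.M_certifies n f hf ha))

end Pool.Agent.Results.MP_8a557e_co.SelfDualLength
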